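import Pool.Agent.H21.HIT.HIZb

/-!
# Bertini's theorem for lines (row BER)
-/

set_option autoImplicit false

open MvPolynomial
open Pool.Agent.H12.ZD (pmap v O Res DenseOrbit NoInv)
open Pool.Agent.H18.HIT

namespace Pool.Agent.H21.HIT

/-- a nonzero polynomial does not vanish at some integer point -/
theorem int_point {N : ℕ} (q : Po N Qb) (hq : q ≠ 0) : ∃ z : Fin N → ℤ, eval (cZ z) q ≠ 0 := by
  by_contra h
  push Not at h
  apply hq
  have hinf : (Set.range (fun n : ℤ => (n : Qb))).Infinite :=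
    Set.infinite_range_of_injective Int.cast_injective
  refine MvPolynomial.funext_set (fun _ => Set.range (fun n : ℤ => (n : Qb))) (fun _ => hinf) ?_
  intro x hx
  have h1 : ∀ i, ∃ z : ℤ, (z : Qb) = x i := fun i => hx i (Set.mem_univ i)
  choose z hz using h1
  have h2 : x = cZ z := funext fun i => (hz i).symm
  rw [h2, h z, map_zero]

/-- restriction to the generic line through `y` -/
noncomputable def gl {N : ℕ} (y : Fin N → ℤ) : Po N Qb →+* Polynomial (Po N Qb) :=
  eval₂Hom (Polynomial.C.comp C)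
    (fun i => Polynomial.C (C (y i : Qb)) + Polynomial.C (X i) * Polynomial.X)

theorem gl_C {N : ℕ} (y : Fin N → ℤ) (a : Qb) : gl y (C a) = Polynomial.C (C a) := by
  unfold gl
  rw [coe_eval₂Hom, eval₂_C]
  rfl

theorem gl_X {N : ℕ} (y : Fin N → ℤ) (i : Fin N) : gl y (X i) =
    Polynomial.C (C (y i : Qb)) + Polynomial.C (X i) * Polynomial.X := by
  unfold gl
  rw [coe_eval₂Hom, eval₂_X]

theorem lin_C {N : ℕ} (y b : Fin N → ℤ) (a : Qb) : lin y b (C a) = Polynomial.C a := by
  unfold lin
  change aeval _ (C a) = _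
  rw [aeval_C]
  rfl

theorem lin_X {N : ℕ} (y b : Fin N → ℤ) (i : Fin N) : lin y b (X i) =
    Polynomial.C ((y i : Qb)) + Polynomial.C ((b i : Qb)) * Polynomial.X := by
  unfold lin
  change aeval _ (X i) = _
  rw [aeval_X]

/-- specialising the generic line -/
theorem gl_spec {N : ℕ} (y b : Fin N → ℤ) :
    (Polynomial.mapRingHom (eval (cZ b))).comp (gl y) = lin y b := by
  apply MvPolynomial.ringHom_ext
  · intro a
    rw [RingHom.comp_apply, gl_C, lin_C, Polynomial.coe_mapRingHom, Polynomial.map_C, eval_C]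
  · intro i
    rw [RingHom.comp_apply, gl_X, lin_X, Polynomial.coe_mapRingHom, Polynomial.map_add,
      Polynomial.map_mul, Polynomial.map_C, Polynomial.map_C, Polynomial.map_X, eval_C, eval_X]
    rfl

/-- the value at `t = 0` -/
theorem lin_zero {N : ℕ} (y b : Fin N → ℤ) (q : Po N Qb) :
    (lin y b q).eval 0 = eval (cZ y) q := by
  have h : (Polynomial.evalRingHom (0 : Qb)).comp (lin y b) = eval (cZ y) := by
    apply MvPolynomial.ringHom_ext
    · intro a
      rw [RingHom.comp_apply, lin_C, Polynomial.coe_evalRingHom, Polynomial.eval_C, eval_C]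
    · intro i
      rw [RingHom.comp_apply, lin_X, Polynomial.coe_evalRingHom, eval_X]
      simp [cZ]
  exact DFunLike.congr_fun h q

/-- coefficients and power series -/
theorem coe_map {R S : Type} [CommRing R] [CommRing S] (f : R →+* S) (q : Polynomial R) :
    PowerSeries.map f (q : PowerSeries R) = ((q.map f : Polynomial S) : PowerSeries S) := by
  ext n
  rw [PowerSeries.coeff_map, Polynomial.coeff_coe, Polynomial.coeff_coe, Polynomial.coeff_map]

/-- the constant coefficients -/
theorem gl_const {N : ℕ} (y : Fin N → ℤ) :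
    ((PowerSeries.constantCoeff (R := Po N Qb)).comp
      (Polynomial.coeToPowerSeries.ringHom)).comp (gl y) = (C).comp (eval (cZ y)) := by
  apply MvPolynomial.ringHom_ext
  · intro a
    rw [RingHom.comp_apply, RingHom.comp_apply, RingHom.comp_apply, gl_C, eval_C,
      Polynomial.coeToPowerSeries.ringHom_apply, Polynomial.coe_C, PowerSeries.constantCoeff_C]
  · intro i
    rw [RingHom.comp_apply, RingHom.comp_apply, RingHom.comp_apply, gl_X, eval_X, map_add, map_add,
      map_mul, map_mul, Polynomial.coeToPowerSeries.ringHom_apply,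
      Polynomial.coeToPowerSeries.ringHom_apply, Polynomial.coeToPowerSeries.ringHom_apply,
      Polynomial.coe_C, Polynomial.coe_C, Polynomial.coe_X, PowerSeries.constantCoeff_C,
      PowerSeries.constantCoeff_X, mul_zero, add_zero]
    rfl

/-- the roots in power series over the ring of the directions -/
theorem ber_T (hHEN : T_HEN) {N : ℕ} (Φ : Polynomial (Po N Qb)) (hΦ : Φ.Monic)
    (U V : Polynomial (Po N Qb)) (ρ : Po N Qb) (y : Fin N → ℤ) (hρ : eval (cZ y) ρ ≠ 0)
    (hUV : U * Φ + V * Polynomial.derivative Φ = Polynomial.C ρ) (E : ℕ) (hE : Φ.natDegree = E) :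
    ∃ T : Fin E → PowerSeries (Po N Qb),
      (Φ.map (gl y)).map (Polynomial.coeToPowerSeries.ringHom) =
        ∏ a, (Polynomial.X - Polynomial.C (T a)) := by
  have hd : (Φ.map (eval (cZ y))).natDegree = E := (hΦ.natDegree_map _).trans hE
  have hs : (Φ.map (eval (cZ y))).Separable := by
    refine ⟨Polynomial.C (eval (cZ y) ρ)⁻¹ * U.map (eval (cZ y)),
      Polynomial.C (eval (cZ y) ρ)⁻¹ * V.map (eval (cZ y)), ?_⟩
    rw [Polynomial.derivative_map, mul_assoc, mul_assoc, ← mul_add, ← Polynomial.map_mul,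
      ← Polynomial.map_mul, ← Polynomial.map_add, hUV, Polynomial.map_C,
      ← Polynomial.C_mul, inv_mul_cancel₀ hρ, Polynomial.C_1]
  obtain ⟨α, hα, hP⟩ := roots_fin _ (hΦ.map (eval (cZ y))) hs E hd
  have hmap : ((Φ.map (gl y)).map (Polynomial.coeToPowerSeries.ringHom)).map
      PowerSeries.constantCoeff = ∏ a, (Polynomial.X - Polynomial.C (C (α a))) := by
    rw [Polynomial.map_map, Polynomial.map_map, gl_const, ← Polynomial.map_map, hP,
      Polynomial.map_prod]
    refine Finset.prod_congr rfl fun a _ => ?_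
    rw [Polynomial.map_sub, Polynomial.map_X, Polynomial.map_C]
  obtain ⟨T, _, hT⟩ := hHEN (Po N Qb) E _ (fun a => C (α a))
    ((hΦ.map (gl y)).map (Polynomial.coeToPowerSeries.ringHom)) hmap (by
      intro a b hab
      rw [← C_sub]
      exact (isUnit_iff_ne_zero.2 (sub_ne_zero.2 fun h => hab (hα h))).map C)
  exact ⟨T, hT⟩

/-- a partial product is not a polynomial -/
theorem ber_claim {N : ℕ} (Φ : Polynomial (Po N Qb)) (hΦ : Φ.Monic) (hirr : Irreducible Φ)
    (y : Fin N → ℤ) (E : ℕ) (hE : Φ.natDegree = E) (T : Fin E → PowerSeries (Po N Qb))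
    (hT : (Φ.map (gl y)).map (Polynomial.coeToPowerSeries.ringHom) =
        ∏ a, (Polynomial.X - Polynomial.C (T a))) (J : Finset (Fin E)) (hJ1 : J.Nonempty)
    (hJ2 : J ≠ Finset.univ) (c : ℕ) : ∃ j i : ℕ, c < i ∧
      PowerSeries.coeff i ((∏ a ∈ J, (Polynomial.X - Polynomial.C (T a))).coeff j) ≠ 0 := by
  classical
  by_contra hcon
  push Not at hcon
  obtain ⟨κ, hκ⟩ : ∃ κ : Polynomial (Po N Qb) →+* PowerSeries (Po N Qb),
    κ = Polynomial.coeToPowerSeries.ringHom := ⟨_, rfl⟩
  have hκa : ∀ q, κ q = (q : PowerSeries (Po N Qb)) := by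
    intro q
    rw [hκ]
    rfl
  have hκi : Function.Injective κ := by
    intro a b hab
    rw [hκa, hκa] at hab
    exact Polynomial.coe_injective _ hab
  rw [← hκ] at hT
  obtain ⟨Q, hQ⟩ : ∃ Q : Polynomial (PowerSeries (Po N Qb)),
    Q = ∏ a ∈ J, (Polynomial.X - Polynomial.C (T a)) := ⟨_, rfl⟩
  rw [← hQ] at hcon
  have hQm : Q.Monic := by
    rw [hQ]
    exact Polynomial.monic_prod_of_monic _ _ fun a _ => Polynomial.monic_X_sub_C _
  have hQd : Q.natDegree = J.card := by
    rw [hQ, Polynomial.natDegree_finsetProd_X_sub_C_eq_card]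
  have hQdvd : Q ∣ (Φ.map (gl y)).map κ := by
    rw [hT, hQ]
    exact Finset.prod_dvd_prod_of_subset _ _ _ (Finset.subset_univ J)
  obtain ⟨Q₀, hQ₀⟩ : ∃ Q₀ : Polynomial (Polynomial (Po N Qb)), Q₀.map κ = Q := by
    have h1 : Q ∈ Polynomial.lifts κ := by
      rw [Polynomial.lifts_iff_coeff_lifts]
      intro n
      refine ⟨PowerSeries.trunc (c + 1) (Q.coeff n), ?_⟩
      rw [hκa]
      ext1 i
      rw [Polynomial.coeff_coe, PowerSeries.coeff_trunc]
      split_ifs with h2
      · rfl
      · exact (hcon n i (by omega)).symm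
    exact (Polynomial.mem_lifts Q).1 h1
  have hQ₀m : Q₀.Monic := Polynomial.monic_of_injective hκi (by rw [hQ₀]; exact hQm)
  have hdvd : Q₀ ∣ Φ.map (gl y) := by
    rw [← Polynomial.map_dvd_map κ hκi hQ₀m, hQ₀]
    exact hQdvd
  obtain ⟨Q₁, hQ₁⟩ := hdvd
  obtain ⟨τ, hτ⟩ : ∃ τ : Po N Qb →+* Po N Qb, τ = eval₂Hom C (fun i => X i - C (y i : Qb)) :=
    ⟨_, rfl⟩
  obtain ⟨θ, hθ⟩ : ∃ θ : Polynomial (Po N Qb) →+* Po N Qb,
    θ = τ.comp (Polynomial.evalRingHom 1) := ⟨_, rfl⟩
  have hθgl : θ.comp (gl y) = RingHom.id (Po N Qb) := by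
    apply MvPolynomial.ringHom_ext
    · intro a
      rw [RingHom.comp_apply, gl_C, hθ, RingHom.comp_apply, Polynomial.coe_evalRingHom,
        Polynomial.eval_C, hτ, coe_eval₂Hom, eval₂_C, RingHom.id_apply]
    · intro i
      rw [RingHom.comp_apply, gl_X, hθ, RingHom.comp_apply, Polynomial.coe_evalRingHom,
        Polynomial.eval_add, Polynomial.eval_mul, Polynomial.eval_C, Polynomial.eval_C,
        Polynomial.eval_X, mul_one, hτ, coe_eval₂Hom, eval₂_add, eval₂_C, eval₂_X,
        RingHom.id_apply, add_sub_cancel]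
  have hfac : Φ = Q₀.map θ * Q₁.map θ := by
    rw [← Polynomial.map_mul, ← hQ₁, Polynomial.map_map, hθgl, Polynomial.map_id]
  have hΨm : (Φ.map (gl y)).Monic := hΦ.map _
  have hQ₁m : Q₁.Monic := hQ₀m.of_mul_monic_left (by rw [← hQ₁]; exact hΨm)
  have hdeg : Q₀.natDegree + Q₁.natDegree = E := by
    rw [← hQ₀m.natDegree_mul hQ₁m, ← hQ₁, hΦ.natDegree_map, hE]
  have hd0 : (Q₀.map θ).natDegree = J.card := by
    rw [hQ₀m.natDegree_map, ← hQd, ← hQ₀, hQ₀m.natDegree_map]
  have hd1 : (Q₁.map θ).natDegree = Q₁.natDegree := hQ₁m.natDegree_map _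
  have hd00 : Q₀.natDegree = J.card := by
    rw [← hd0, hQ₀m.natDegree_map]
  have hJ1' : 0 < J.card := Finset.card_pos.2 hJ1
  have hJ2' : J.card < E := by
    have h2 : J.card < Fintype.card (Fin E) := by
      rw [← Finset.card_univ]
      exact Finset.card_lt_card (Finset.ssubset_univ_iff.2 hJ2)
    rwa [Fintype.card_fin] at h2
  rcases hirr.isUnit_or_isUnit hfac with h | h
  · have h1 := Polynomial.natDegree_eq_zero_of_isUnit h
    omega
  · have h1 := Polynomial.natDegree_eq_zero_of_isUnit h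
    omega

theorem pf_BER (hSEP : T_SEP) (hHEN : T_HEN) (hMFP : T_MFP) (hDFB : T_DFB) : T_BER := by
  classical
  intro N Φ c hΦ hirr hc
  obtain ⟨U, V, ρ, hρ, hUV⟩ := hSEP (Po N Qb) Φ hΦ hirr
  obtain ⟨y, hy⟩ := int_point (ρ * c) (mul_ne_zero hρ hc)
  rw [map_mul] at hy
  have hyρ : eval (cZ y) ρ ≠ 0 := left_ne_zero_of_mul hy
  have hyc : eval (cZ y) c ≠ 0 := right_ne_zero_of_mul hy
  obtain ⟨E, hE⟩ : ∃ E, Φ.natDegree = E := ⟨_, rfl⟩
  have hE1 : 1 ≤ E := by
    by_contra hlt
    have h1 : Φ.natDegree = 0 := by omega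
    have h2 : Φ = 1 := Polynomial.eq_one_of_monic_natDegree_zero hΦ h1
    exact hirr.not_isUnit (h2 ▸ isUnit_one)
  obtain ⟨T, hT⟩ := ber_T hHEN Φ hΦ U V ρ y hyρ hUV E hE
  -- degrees
  obtain ⟨c₀, hc₀⟩ : ∃ c₀ : ℕ, c₀ = ∑ j ∈ Finset.range E, (gl y (Φ.coeff j)).natDegree := ⟨_, rfl⟩
  -- the nonvanishing coefficients
  have hcl : ∀ J : Finset (Fin E), ∃ (q : Po N Qb) (j i : ℕ), q ≠ 0 ∧ (J.Nonempty →
      J ≠ Finset.univ → c₀ * E < i ∧
      PowerSeries.coeff i ((∏ a ∈ J, (Polynomial.X - Polynomial.C (T a))).coeff j) = q) := by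
    intro J
    by_cases h1 : J.Nonempty
    · by_cases h2 : J ≠ Finset.univ
      · obtain ⟨j, i, h3, h4⟩ := ber_claim Φ hΦ hirr y E hE T hT J h1 h2 (c₀ * E)
        exact ⟨_, j, i, h4, fun _ _ => ⟨h3, rfl⟩⟩
      · exact ⟨1, 0, 0, one_ne_zero, fun _ h => absurd h h2⟩
    · exact ⟨1, 0, 0, one_ne_zero, fun h => absurd h h1⟩
  choose q jj ii hq hqJ using hcl
  obtain ⟨b, hb⟩ := int_point (∏ J, q J) (Finset.prod_ne_zero_iff.2 fun J _ => hq J)
  have hbJ : ∀ J, eval (cZ b) (q J) ≠ 0 := by
    intro J hJ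
    apply hb
    rw [map_prod]
    exact Finset.prod_eq_zero (Finset.mem_univ J) hJ
  refine ⟨y, b, ?_, ?_⟩
  · have hPm : (Φ.map (lin y b)).Monic := hΦ.map _
    have hPd : (Φ.map (lin y b)).natDegree = E := (hΦ.natDegree_map _).trans hE
    rw [hPm.irreducible_iff_natDegree]
    refine ⟨?_, ?_⟩
    · intro h
      rw [h, Polynomial.natDegree_one] at hPd
      omega
    · intro f g hf hg hfg
      by_contra hcon
      push Not at hcon
      obtain ⟨hf0, hg0⟩ := hcon
      have hsum : f.natDegree + g.natDegree = E := by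
        rw [← hPd, ← hfg, hf.natDegree_mul hg]
      -- degrees of the coefficients
      have hdeg : ∀ j, (f.coeff j).natDegree ≤ c₀ * E := by
        intro j
        have h1 := hDFB Qb f g c₀ hf hg (by
          intro j
          rw [hfg, hPd, Polynomial.coeff_map, ← gl_spec, RingHom.comp_apply,
            Polynomial.coe_mapRingHom]
          rcases lt_trichotomy j E with h2 | h2 | h2
          · refine (Polynomial.natDegree_map_le).trans ?_
            have h3 : (gl y (Φ.coeff j)).natDegree ≤ c₀ := by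
              rw [hc₀]
              exact Finset.single_le_sum (f := fun j => (gl y (Φ.coeff j)).natDegree)
                (fun _ _ => Nat.zero_le _) (Finset.mem_range.2 h2)
            refine h3.trans (Nat.le_mul_of_pos_right _ (by omega))
          · have h3 : Φ.coeff j = 1 := by
              rw [h2, ← hE]
              exact hΦ
            rw [h3, map_one, Polynomial.map_one, Polynomial.natDegree_one]
            exact Nat.zero_le _
          · have h3 : Φ.coeff j = 0 := Polynomial.coeff_eq_zero_of_natDegree_lt (by omega)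
            rw [h3, map_zero, Polynomial.map_zero, Polynomial.natDegree_zero]
            exact Nat.zero_le _) j
        refine h1.trans (Nat.mul_le_mul_left _ ?_)
        omega
      obtain ⟨κ, hκ⟩ : ∃ κ : Polynomial Qb →+* PowerSeries Qb,
        κ = Polynomial.coeToPowerSeries.ringHom := ⟨_, rfl⟩
      have hκa : ∀ q, κ q = (q : PowerSeries Qb) := by
        intro q
        rw [hκ]
        rfl
      have hprod : (Φ.map (lin y b)).map κ =
          ∏ a, (Polynomial.X - Polynomial.C (PowerSeries.map (eval (cZ b)) (T a))) := by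
        have h1 : κ.comp (lin y b) = ((PowerSeries.map (eval (cZ b))).comp
            (Polynomial.coeToPowerSeries.ringHom)).comp (gl y) := by
          rw [← gl_spec]
          apply RingHom.ext
          intro q
          rw [RingHom.comp_apply, RingHom.comp_apply, RingHom.comp_apply, RingHom.comp_apply,
            hκa, Polynomial.coe_mapRingHom, Polynomial.coeToPowerSeries.ringHom_apply, coe_map]
        rw [Polynomial.map_map, h1, ← Polynomial.map_map, ← Polynomial.map_map]
        rw [hT, Polynomial.map_prod]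
        refine Finset.prod_congr rfl fun a _ => ?_
        rw [Polynomial.map_sub, Polynomial.map_X, Polynomial.map_C]
      obtain ⟨J, hJ⟩ := hMFP (PowerSeries Qb) E _ (f.map κ) (hf.map κ) (by
        rw [← hprod, ← hfg, Polynomial.map_mul]
        exact dvd_mul_right _ _)
      have hcard : J.card = f.natDegree := by
        rw [← hf.natDegree_map κ, hJ, Polynomial.natDegree_finsetProd_X_sub_C_eq_card]
      have hJ1 : J.Nonempty := by
        rw [← Finset.card_pos, hcard]
        omega
      have hJ2 : J ≠ Finset.univ := by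
        intro h
        rw [h, Finset.card_univ, Fintype.card_fin] at hcard
        omega
      obtain ⟨h1, h2⟩ := hqJ J hJ1 hJ2
      apply hbJ J
      rw [← h2, ← PowerSeries.coeff_map, ← Polynomial.coeff_map, Polynomial.map_prod]
      have h3 : ∏ a ∈ J, ((Polynomial.X - Polynomial.C (T a)).map
          (PowerSeries.map (eval (cZ b)))) = f.map κ := by
        rw [hJ]
        refine Finset.prod_congr rfl fun a _ => ?_
        rw [Polynomial.map_sub, Polynomial.map_X, Polynomial.map_C]
      rw [h3, Polynomial.coeff_map, hκa, Polynomial.coeff_coe]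
      exact Polynomial.coeff_eq_zero_of_natDegree_lt (lt_of_le_of_lt (hdeg _) h1)
  · intro h
    apply hyc
    rw [← lin_zero y b, h, Polynomial.eval_zero]

end Pool.Agent.H21.HIT
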