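import Pool.Agent.H21.HIT.HIZb

/-!
# Hilbert's irreducibility theorem over the integers (row HIZ)
-/

set_option autoImplicit false

open MvPolynomial
open Pool.Agent.H12.ZD (pmap v O Res DenseOrbit NoInv)
open Pool.Agent.H18.HIT

namespace Pool.Agent.H21.HIT

/-- the power series roots at a good prime -/
theorem exists_T (hHEN : T_HEN) (Ψ : Polynomial (Polynomial ℤ)) (hΨ : Ψ.Monic)
    (U V : Polynomial (Polynomial ℤ)) (ρ : Polynomial ℤ) (hρ : ρ.eval 0 ≠ 0)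
    (hUV : U * Ψ + V * Polynomial.derivative Ψ = Polynomial.C ρ) :
    ∃ (p : Nat.Primes) (T : Fin Ψ.natDegree → PowerSeries (O p)),
      Ψ.map (toPS p) = ∏ a, (Polynomial.X - Polynomial.C (T a)) ∧
      ∀ a b, a ≠ b →
        IsUnit (PowerSeries.constantCoeff (T a) - PowerSeries.constantCoeff (T b)) := by
  have h0 : (Ψ.map (Polynomial.evalRingHom 0)).natDegree = Ψ.natDegree := hΨ.natDegree_map _
  have hUV0 : U.map (Polynomial.evalRingHom 0) * Ψ.map (Polynomial.evalRingHom 0) +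
      V.map (Polynomial.evalRingHom 0) *
        Polynomial.derivative (Ψ.map (Polynomial.evalRingHom 0)) = Polynomial.C (ρ.eval 0) := by
    rw [Polynomial.derivative_map, ← Polynomial.map_mul, ← Polynomial.map_mul,
      ← Polynomial.map_add, hUV, Polynomial.map_C, Polynomial.coe_evalRingHom]
  obtain ⟨α, hα, hP, hv⟩ := exists_roots _ (hΨ.map (Polynomial.evalRingHom 0)) _ _ _ hρ hUV0
    Ψ.natDegree h0
  obtain ⟨p, hp⟩ := exists_prime α hα
  obtain ⟨β, hβ⟩ : ∃ β : Fin Ψ.natDegree → O p, ∀ a, (β a : Qb) = α a :=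
    ⟨fun a => ⟨α a, hv p a⟩, fun _ => rfl⟩
  have hun : ∀ a b, a ≠ b → IsUnit (β a - β b) := by
    intro a b hab
    have h1 : v p ((1 : O p) : Qb) ≤ v p ((β a - β b : O p) : Qb) := by
      rw [AddSubgroupClass.coe_sub, hβ, hβ, hp a b hab]
      exact le_of_eq (Pool.Agent.H12.ZD.v_one p)
    exact isUnit_of_dvd_one (dvd_O p h1)
  have hmap : (Ψ.map (toPS p)).map PowerSeries.constantCoeff =
      ∏ a, (Polynomial.X - Polynomial.C (β a)) := by
    apply Polynomial.map_injective (O p).subtype Subtype.val_injective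
    rw [Polynomial.map_map, Polynomial.map_map]
    have h1 : (((O p).subtype.comp (PowerSeries.constantCoeff (R := O p))).comp (toPS p)) =
        (Int.castRingHom Qb).comp (Polynomial.evalRingHom 0) := by
      apply Polynomial.ringHom_ext
      · intro a
        simp
      · rw [RingHom.comp_apply, RingHom.comp_apply, RingHom.comp_apply]
        have h2 : toPS p Polynomial.X = PowerSeries.X := by
          unfold toPS
          rw [RingHom.comp_apply, Polynomial.coe_mapRingHom, Polynomial.map_X]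
          exact Polynomial.coe_X
        rw [h2, PowerSeries.constantCoeff_X, map_zero, Polynomial.coe_evalRingHom,
          Polynomial.eval_X, map_zero]
    rw [h1, ← Polynomial.map_map, hP, Polynomial.map_prod]
    refine Finset.prod_congr rfl fun a _ => ?_
    rw [Polynomial.map_sub, Polynomial.map_X, Polynomial.map_C]
    congr 2
    exact (hβ a).symm
  obtain ⟨T, hT1, hT2⟩ := hHEN (O p) Ψ.natDegree (Ψ.map (toPS p)) β (hΨ.map _) hmap hun
  refine ⟨p, T, hT2, fun a b hab => ?_⟩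
  rw [hT1, hT1]
  exact hun a b hab

/-- a factorisation of a specialisation -/
theorem factor_t (hROO : T_ROO) (hPAP : T_PAP) (hMFP : T_MFP) (p : Nat.Primes)
    (Ψ : Polynomial (Polynomial ℤ)) (hΨ : Ψ.Monic) (E : ℕ) (hE : Ψ.natDegree = E) (hE1 : 1 ≤ E)
    (T : Fin E → PowerSeries (O p))
    (hT : Ψ.map (toPS p) = ∏ a, (Polynomial.X - Polynomial.C (T a)))
    (hTu : ∀ a b, a ≠ b →
        IsUnit (PowerSeries.constantCoeff (T a) - PowerSeries.constantCoeff (T b)))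
    (B c : ℕ) (hB : ∀ (t : ℤ) (A : Polynomial ℤ), A.Monic →
      A ∣ Ψ.map (Polynomial.evalRingHom t) → ∀ j, |A.coeff j| ≤ B * (|t| + 1) ^ c)
    (t : ℤ) (ht : v p (t : Qb) < 1) (hred : ¬ Irreducible (Ψ.map (Polynomial.evalRingHom t))) :
    ∃ J : Finset (Fin E), J.Nonempty ∧ J ≠ Finset.univ ∧ ∀ j, ∃ u : ℤ,
      |u| ≤ B * (|t| + 1) ^ c ∧ ∀ L : ℕ, v p ((u : Qb) -
        (((PowerSeries.trunc L ((∏ a ∈ J, (Polynomial.X - Polynomial.C (T a))).coeff j)).eval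
          ((t : ℤ) : O p) : O p) : Qb)) ≤ v p (t : Qb) ^ L := by
  have hPm : (Ψ.map (Polynomial.evalRingHom t)).Monic := hΨ.map _
  have hPd : (Ψ.map (Polynomial.evalRingHom t)).natDegree = E := (hΨ.natDegree_map _).trans hE
  rw [hPm.irreducible_iff_natDegree] at hred
  have hP1 : Ψ.map (Polynomial.evalRingHom t) ≠ 1 := by
    intro h
    rw [h, Polynomial.natDegree_one] at hPd
    omega
  push Not at hred
  obtain ⟨f, g, hf, hg, hfg, hf0, hg0⟩ := hred hP1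
  obtain ⟨ρ, hρ1, hρ2⟩ := hROO p Ψ E T hΨ hT hTu t ht
  have hfd : f.map (Int.castRingHom Qb) ∣ ∏ a, (Polynomial.X - Polynomial.C (ρ a)) := by
    rw [← hρ1, ← hfg, Polynomial.map_mul]
    exact dvd_mul_right _ _
  obtain ⟨J, hJ⟩ := hMFP Qb E ρ _ (hf.map _) hfd
  have hcard : J.card = f.natDegree := by
    rw [← hf.natDegree_map (Int.castRingHom Qb), hJ,
      Polynomial.natDegree_finsetProd_X_sub_C_eq_card]
  have hsum : f.natDegree + g.natDegree = E := by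
    rw [← hPd, ← hfg, hf.natDegree_mul hg]
  refine ⟨J, ?_, ?_, fun j => ⟨f.coeff j, ?_, ?_⟩⟩
  · rw [← Finset.card_pos, hcard]
    omega
  · intro h
    rw [h, Finset.card_univ, Fintype.card_fin] at hcard
    omega
  · exact hB t f hf ⟨g, hfg.symm⟩ j
  · intro L
    have h1 := hPAP p E T J t ρ ht hρ2 j L
    have h2 : ((f.coeff j : ℤ) : Qb) =
        (∏ a ∈ J, (Polynomial.X - Polynomial.C (ρ a))).coeff j := by
      rw [← hJ, Polynomial.coeff_map, eq_intCast]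
    rw [h2]
    exact h1

/-- Hilbert's irreducibility theorem if the discriminant does not vanish at zero -/
theorem hiz0 (hHEN : T_HEN) (hDET : T_DET) (hKER : T_KER) (hARC : T_ARC) (hROO : T_ROO)
    (hPAP : T_PAP) (hALC : T_ALC) (hVAL : T_VAL) (hMFP : T_MFP)
    (Ψ : Polynomial (Polynomial ℤ)) (hΨ : Ψ.Monic) (hirr : Irreducible Ψ)
    (U V : Polynomial (Polynomial ℤ)) (ρ : Polynomial ℤ) (hρ : ρ.eval 0 ≠ 0)
    (hUV : U * Ψ + V * Polynomial.derivative Ψ = Polynomial.C ρ) (M : ℕ) :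
    ∃ t : ℤ, (M : ℤ) < |t| ∧ Irreducible (Ψ.map (Polynomial.evalRingHom t)) := by
  classical
  obtain ⟨p, T, hT, hTu⟩ := exists_T hHEN Ψ hΨ U V ρ hρ hUV
  obtain ⟨E, hE⟩ : ∃ E, E = Ψ.natDegree := ⟨_, rfl⟩
  revert T
  rw [← hE]
  intro T hT hTu
  have hE1 : 1 ≤ E := by
    rw [hE]
    by_contra hlt
    have h1 : Ψ.natDegree = 0 := by omega
    have h2 : Ψ = 1 := Polynomial.eq_one_of_monic_natDegree_zero hΨ h1
    exact hirr.not_isUnit (h2 ▸ isUnit_one)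
  have hALC' : ∀ J : Finset (Fin E), ∃ (j : ℕ) (Y : Polynomial (Polynomial ℤ)),
      (J.Nonempty → J ≠ Finset.univ →
        Y.eval₂ (toPS p) ((∏ a ∈ J, (Polynomial.X - Polynomial.C (T a))).coeff j) = 0 ∧
        ∀ g₀ g₁ : Polynomial ℤ, ¬ (g₀ = 0 ∧ g₁ = 0) →
          ∑ i ∈ Finset.range (Y.natDegree + 1),
            Y.coeff i * g₀ ^ i * g₁ ^ (Y.natDegree - i) ≠ 0) := by
    intro J
    by_cases h1 : J.Nonempty
    · by_cases h2 : J ≠ Finset.univ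
      · obtain ⟨j, Y, _, h3, h4⟩ := hALC p Ψ E T hΨ hirr hT J h1 h2
        exact ⟨j, Y, fun _ _ => ⟨h3, h4⟩⟩
      · exact ⟨0, 0, fun _ h => absurd h h2⟩
    · exact ⟨0, 0, fun h => absurd h h1⟩
  choose jj YY hJY using hALC'
  obtain ⟨B, c, hB⟩ := hARC Ψ hΨ
  obtain ⟨C₁, hC₁⟩ : ∃ C₁ : ℕ, C₁ = ∑ J : Finset (Fin E), ((YY J).natDegree * c +
    ∑ i ∈ Finset.range ((YY J).natDegree + 1), ((YY J).coeff i).natDegree) := ⟨_, rfl⟩
  obtain ⟨T₀, hT₀⟩ : ∃ T₀ : ℕ, T₀ = 2 ^ E * C₁ + 1 := ⟨_, rfl⟩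
  obtain ⟨K, hK⟩ : ∃ K : ℕ, K = (2 * (c + 1)).factorial *
    (B ^ (c + 1) * (T₀ + 1) ^ (2 * c * (c + 1))) := ⟨_, rfl⟩
  obtain ⟨s, hs⟩ : ∃ s : ℕ, s = K + M + 1 := ⟨_, rfl⟩
  have hps : s < (p : ℕ) ^ s := Nat.lt_pow_self p.2.one_lt
  by_contra hcon
  push Not at hcon
  obtain ⟨tt, htt⟩ : ∃ tt : ℕ → ℤ, tt = fun (τ : ℕ) => ((p : ℕ) : ℤ) ^ s * (τ : ℤ) := ⟨_, rfl⟩
  have httM : ∀ τ : ℕ, 1 ≤ τ → (M : ℤ) < |tt τ| := by
    intro τ hτ
    rw [htt]
    dsimp only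
    have h1 : (0 : ℤ) ≤ ((p : ℕ) : ℤ) ^ s * τ := by positivity
    rw [abs_of_nonneg h1]
    have h2 : M < (p : ℕ) ^ s * τ := by
      calc M < (p : ℕ) ^ s := by omega
        _ ≤ (p : ℕ) ^ s * τ := Nat.le_mul_of_pos_right _ hτ
    exact_mod_cast h2
  have httv : ∀ τ : ℕ, v p ((tt τ : ℤ) : Qb) < 1 := by
    intro τ
    rw [htt]
    have h1 : ((((p : ℕ) : ℤ) ^ s * (τ : ℤ) : ℤ) : Qb) = (((p : ℕ) ^ s * τ : ℕ) : Qb) := by
      push_cast
      rfl
    dsimp only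
    rw [h1]
    apply Pool.Agent.H12.ZD.v_natCast_lt
    exact Dvd.dvd.mul_right (dvd_pow_self _ (by omega)) _
  have hfac : ∀ τ : ℕ, ∃ J : Finset (Fin E), 1 ≤ τ → J.Nonempty ∧ J ≠ Finset.univ ∧
      ∀ j, ∃ u : ℤ, |u| ≤ B * (|tt τ| + 1) ^ c ∧ ∀ L : ℕ, v p ((u : Qb) -
        (((PowerSeries.trunc L ((∏ a ∈ J, (Polynomial.X - Polynomial.C (T a))).coeff j)).eval
          ((tt τ : ℤ) : O p) : O p) : Qb)) ≤ v p (tt τ : Qb) ^ L := by
    intro τ
    by_cases hτ : 1 ≤ τ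
    · obtain ⟨J, hJ⟩ := factor_t hROO hPAP hMFP p Ψ hΨ E hE.symm hE1 T hT hTu B c hB (tt τ)
        (httv τ) (hcon _ (httM τ hτ))
      exact ⟨J, fun _ => hJ⟩
    · exact ⟨∅, fun h => absurd h hτ⟩
  choose Jf hJf using hfac
  obtain ⟨J, _, hJc⟩ := Finset.exists_lt_card_fiber_of_mul_lt_card_of_maps_to
    (s := Finset.Icc 1 T₀) (t := (Finset.univ : Finset (Finset (Fin E)))) (f := Jf) (n := C₁)
    (fun _ _ => Finset.mem_univ _) (by
      rw [Finset.card_univ, Fintype.card_finset, Fintype.card_fin, Nat.card_Icc]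
      omega)
  obtain ⟨A, hA⟩ : ∃ A : Finset ℕ, A = {τ ∈ Finset.Icc 1 T₀ | Jf τ = J} := ⟨_, rfl⟩
  rw [← hA] at hJc
  have hAm : ∀ τ ∈ A, 1 ≤ τ ∧ τ ≤ T₀ ∧ Jf τ = J := by
    intro τ hτ
    rw [hA, Finset.mem_filter, Finset.mem_Icc] at hτ
    exact ⟨hτ.1.1, hτ.1.2, hτ.2⟩
  obtain ⟨τ₀, hτ₀⟩ : A.Nonempty := by
    rw [← Finset.card_pos]
    omega
  obtain ⟨hJ1, hJ2⟩ : J.Nonempty ∧ J ≠ Finset.univ := by
    have h1 := hJf τ₀ (hAm τ₀ hτ₀).1
    rw [(hAm τ₀ hτ₀).2.2] at h1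
    exact ⟨h1.1, h1.2.1⟩
  obtain ⟨hY1, hY2⟩ := hJY J hJ1 hJ2
  obtain ⟨Θ, hΘ⟩ : ∃ Θ : Finset ℤ, Θ = A.image tt := ⟨_, rfl⟩
  have hinj : Function.Injective tt := by
    intro a b hab
    rw [htt] at hab
    dsimp only at hab
    have h1 : (((p : ℕ) : ℤ) ^ s) ≠ 0 := pow_ne_zero _ (by exact_mod_cast p.2.ne_zero)
    exact_mod_cast mul_left_cancel₀ h1 hab
  have hΘc : Θ.card = A.card := by
    rw [hΘ]
    exact Finset.card_image_of_injective _ hinj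
  have hΘm : ∀ t ∈ Θ, ∃ τ, τ ∈ A ∧ tt τ = t := by
    intro t ht
    rw [hΘ, Finset.mem_image] at ht
    exact ht
  obtain ⟨W, hW⟩ : ∃ W : PowerSeries (O p),
    W = (∏ a ∈ J, (Polynomial.X - Polynomial.C (T a))).coeff (jj J) := ⟨_, rfl⟩
  rw [← hW] at hY1
  have huΘ : ∀ t : ℤ, ∃ u : ℤ, t ∈ Θ → |u| ≤ B * (|t| + 1) ^ c ∧ ∀ L : ℕ, v p ((u : Qb) -
        (((PowerSeries.trunc L W).eval ((t : ℤ) : O p) : O p) : Qb)) ≤ v p (t : Qb) ^ L := by
    intro t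
    by_cases ht : t ∈ Θ
    · obtain ⟨τ, hτ, rfl⟩ := hΘm t ht
      have h1 := (hJf τ (hAm τ hτ).1).2.2 (jj J)
      rw [(hAm τ hτ).2.2, ← hW] at h1
      obtain ⟨u, hu⟩ := h1
      exact ⟨u, fun _ => hu⟩
    · exact ⟨0, fun h => absurd h ht⟩
  choose u hu using huΘ
  obtain ⟨g, hg, hgt⟩ := hKER ℚ {t // t ∈ Θ} (2 * (c + 1))
    (fun t j => ent c ((t : ℤ) : ℚ) (u t : ℚ) j) (by
      intro σ
      have hτ : ∀ i, ∃ τ : ℕ, ((σ i : ℤ)) = ((p : ℕ) : ℤ) ^ s * τ ∧ τ ≤ T₀ := by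
        intro i
        obtain ⟨τ, hτ1, hτ2⟩ := hΘm (σ i) (σ i).2
        refine ⟨τ, ?_, (hAm τ hτ1).2.1⟩
        rw [← hτ2, htt]
      choose τ hτ1 hτ2 using hτ
      have h1 := det_zero p hDET W c B T₀ s (by rw [← hK]; omega) τ (fun i => u (σ i))
        (fun i => (σ i : ℤ)) hτ1 hτ2 (fun i => (hu _ (σ i).2).1) (fun i => (hu _ (σ i).2).2)
      have h2 := RingHom.map_det (Int.castRingHom ℚ) (Matrix.of fun i j : Fin (2 * (c + 1)) =>
        ent c ((σ i : ℤ)) (u (σ i)) j)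
      rw [h1, map_zero] at h2
      rw [h2]
      congr 1
      ext1 i j
      change ent c (((σ i : ℤ)) : ℚ) (u (σ i) : ℚ) j = Int.castRingHom ℚ (ent c ((σ i : ℤ)) (u (σ i)) j)
      unfold ent
      split_ifs <;> simp) (by omega)
  refine alg_end (YY J) c C₁ (2 * (c + 1)) rfl ?_ hY2 Θ (by rw [hΘc]; exact hJc) u ?_ g hg ?_
  · rw [hC₁]
    exact Finset.single_le_sum (f := fun J : Finset (Fin E) => (YY J).natDegree * c +
      ∑ i ∈ Finset.range ((YY J).natDegree + 1), ((YY J).coeff i).natDegree)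
      (fun _ _ => Nat.zero_le _) (Finset.mem_univ J)
  · intro t ht
    obtain ⟨τ, hτ, rfl⟩ := hΘm t ht
    exact hVAL p (YY J) W hY1 (tt τ) (u (tt τ)) (httv τ) (hu _ ht).2
  · intro t ht
    exact hgt ⟨t, ht⟩

theorem pf_HIZ (hSEP : T_SEP) (hHEN : T_HEN) (hDET : T_DET) (hKER : T_KER) (hARC : T_ARC)
    (hROO : T_ROO) (hPAP : T_PAP) (hALC : T_ALC) (hVAL : T_VAL) (hMFP : T_MFP) : T_HIZ := by
  intro Ψ hΨ hirr M
  obtain ⟨U, V, ρ, hρ, hUV⟩ := hSEP (Polynomial ℤ) Ψ hΨ hirr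
  obtain ⟨t₀, ht₀⟩ : ∃ t₀ : ℤ, ρ.eval t₀ ≠ 0 := by
    by_contra h
    push Not at h
    exact hρ (Polynomial.funext fun t => by rw [h t, Polynomial.eval_zero])
  obtain ⟨e, he⟩ : ∃ e : Polynomial ℤ ≃+* Polynomial ℤ,
      e = (Polynomial.algEquivAevalXAddC t₀).toRingEquiv := ⟨_, rfl⟩
  have hee : ∀ q : Polynomial ℤ, e q = q.comp (Polynomial.X + Polynomial.C t₀) := by
    intro q
    rw [he]
    rfl
  obtain ⟨φ, hφ⟩ : ∃ φ : Polynomial (Polynomial ℤ) ≃+* Polynomial (Polynomial ℤ),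
      φ = Polynomial.mapEquiv e := ⟨_, rfl⟩
  have hφe : ∀ q : Polynomial (Polynomial ℤ), φ q = q.map (e : Polynomial ℤ →+* Polynomial ℤ) := by
    intro q
    rw [hφ]
    rfl
  have hmon : (Ψ.map (e : Polynomial ℤ →+* Polynomial ℤ)).Monic := hΨ.map _
  have hirr' : Irreducible (Ψ.map (e : Polynomial ℤ →+* Polynomial ℤ)) := by
    rw [← hφe]
    exact (MulEquiv.irreducible_iff φ.toMulEquiv).2 hirr
  have hUV' : U.map (e : Polynomial ℤ →+* Polynomial ℤ) *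
      Ψ.map (e : Polynomial ℤ →+* Polynomial ℤ) + V.map (e : Polynomial ℤ →+* Polynomial ℤ) *
        Polynomial.derivative (Ψ.map (e : Polynomial ℤ →+* Polynomial ℤ)) =
      Polynomial.C (e ρ) := by
    rw [Polynomial.derivative_map, ← Polynomial.map_mul, ← Polynomial.map_mul,
      ← Polynomial.map_add, hUV, Polynomial.map_C]
    rfl
  have hρ' : (e ρ).eval 0 ≠ 0 := by
    rw [hee, Polynomial.eval_comp]
    simpa using ht₀
  obtain ⟨t, ht1, ht2⟩ := hiz0 hHEN hDET hKER hARC hROO hPAP hALC hVAL hMFP _ hmon hirr' _ _ _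
    hρ' hUV' (M + t₀.natAbs)
  refine ⟨t + t₀, ?_, ?_⟩
  · have h1 : |t| ≤ |t + t₀| + |t₀| := by
      have := abs_sub (t + t₀) t₀
      rwa [add_sub_cancel_right] at this
    push_cast at ht1
    linarith
  · rw [Polynomial.map_map] at ht2
    have h1 : (Polynomial.evalRingHom t).comp (e : Polynomial ℤ →+* Polynomial ℤ) =
        Polynomial.evalRingHom (t + t₀) := by
      apply RingHom.ext
      intro q
      rw [RingHom.comp_apply]
      change (e q).eval t = q.eval (t + t₀)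
      rw [hee, Polynomial.eval_comp]
      simp
    rwa [h1] at ht2

end Pool.Agent.H21.HIT
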