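import Pool.Agent.H18.HIT.Targets

/-!
# Hilbert's irreducibility theorem over the integers (row HIZ), part 1: the determinant
-/

set_option autoImplicit false

open MvPolynomial
open Pool.Agent.H12.ZD (pmap v O Res DenseOrbit NoInv)
open Pool.Agent.H18.HIT

namespace Pool.Agent.H21.HIT

/-- a bound for a determinant by bounds for the columns -/
theorem abs_det_le {r : ℕ} (M : Matrix (Fin r) (Fin r) ℤ) (b : Fin r → ℤ)
    (h : ∀ i j, |M i j| ≤ b j) : |M.det| ≤ r.factorial * ∏ j, b j := by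
  rw [Matrix.det_apply]
  refine (Finset.abs_sum_le_sum_abs _ _).trans ?_
  have h1 : ∀ σ : Equiv.Perm (Fin r), |Equiv.Perm.sign σ • ∏ i, M (σ i) i| ≤ ∏ j, b j := by
    intro σ
    have h2 : |Equiv.Perm.sign σ • ∏ i, M (σ i) i| = |∏ i, M (σ i) i| := by
      rcases Int.units_eq_one_or (Equiv.Perm.sign σ) with h3 | h3
      · rw [h3, one_smul]
      · rw [h3, Units.neg_smul, one_smul, abs_neg]
    rw [h2, Finset.abs_prod]
    exact Finset.prod_le_prod (fun i _ => abs_nonneg _) fun i _ => h _ _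
  refine (Finset.sum_le_card_nsmul _ _ _ fun σ _ => h1 σ).trans ?_
  rw [Finset.card_univ, Fintype.card_perm, Fintype.card_fin, nsmul_eq_mul]

theorem sum_Ioi (r : ℕ) : ∑ i : Fin r, (Finset.Ioi i).card = r * (r - 1) / 2 := by
  have h1 : ∑ i : Fin r, (Finset.Ioi i).card = ∑ i ∈ Finset.range r, (r - 1 - i) := by
    rw [← Fin.sum_univ_eq_sum_range]
    refine Finset.sum_congr rfl fun i _ => ?_
    rw [Fin.card_Ioi]
  rw [h1, Finset.sum_range_reflect (fun i => i) r, Finset.sum_range_id]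

/-- congruent determinants -/
theorem dvd_det {R : Type} [CommRing R] {r : ℕ} (Q : R) (M M' : Matrix (Fin r) (Fin r) R)
    (h : ∀ i j, Q ∣ M i j - M' i j) (h' : Q ∣ M'.det) : Q ∣ M.det := by
  have h1 : (Ideal.Quotient.mk (Ideal.span {Q})).mapMatrix M =
      (Ideal.Quotient.mk (Ideal.span {Q})).mapMatrix M' := by
    ext i j
    change Ideal.Quotient.mk (Ideal.span {Q}) (M i j) = Ideal.Quotient.mk (Ideal.span {Q}) (M' i j)
    rw [Ideal.Quotient.eq, Ideal.mem_span_singleton]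
    exact h i j
  have h2 : Ideal.Quotient.mk (Ideal.span {Q}) M.det = Ideal.Quotient.mk (Ideal.span {Q}) M'.det := by
    rw [RingHom.map_det, RingHom.map_det, h1]
  rw [Ideal.Quotient.eq, Ideal.mem_span_singleton] at h2
  have h3 := dvd_add h2 h'
  rwa [sub_add_cancel] at h3

variable (p : Nat.Primes)

theorem dvd_O {x q : O p} (h : v p (x : Qb) ≤ v p (q : Qb)) : q ∣ x := by
  by_cases hq : q = 0
  · rw [hq] at h ⊢
    have h1 : v p (x : Qb) ≤ 0 := by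
      refine h.trans (le_of_eq ?_)
      exact Pool.Agent.H12.ZD.v_zero p
    have h2 : (x : Qb) = 0 :=
      (Pool.Agent.H12.ZD.v_eq_zero p).1 (le_antisymm h1 (Pool.Agent.H12.ZD.v_nonneg p _))
    have h3 : x = 0 := Subtype.ext h2
    rw [h3]
  · have hq' : (q : Qb) ≠ 0 := fun h0 => hq (Subtype.ext h0)
    have hvq : 0 < v p (q : Qb) := (Pool.Agent.H12.ZD.v_pos p).2 hq'
    refine ⟨⟨(x : Qb) / q, ?_⟩, ?_⟩
    · change v p ((x : Qb) / q) ≤ 1
      rw [div_eq_mul_inv, Pool.Agent.H12.ZD.v_mul, Pool.Agent.H12.ZD.v_inv, ← div_eq_mul_inv]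
      exact (div_le_one hvq).2 h
    · apply Subtype.ext
      change (x : Qb) = (q : Qb) * ((x : Qb) / q)
      field_simp

theorem v_dvd {x q : O p} (h : q ∣ x) : v p (x : Qb) ≤ v p (q : Qb) := by
  obtain ⟨y, rfl⟩ := h
  change v p ((q : Qb) * (y : Qb)) ≤ _
  rw [Pool.Agent.H12.ZD.v_mul]
  exact mul_le_of_le_one_right (Pool.Agent.H12.ZD.v_nonneg p _) y.2

theorem cast_O (n : ℤ) : (((n : ℤ) : O p) : Qb) = (n : Qb) := map_intCast (O p).subtype n

/-- divisibility by powers of `p` -/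
theorem dvd_of_v {D : ℤ} {n : ℕ} (h : (((p : ℕ) : ℤ) : O p) ^ n ∣ ((D : ℤ) : O p)) :
    ((p : ℕ) : ℤ) ^ n ∣ D := by
  have h1 := v_dvd p h
  have h2 : (((((p : ℕ) : ℤ) : O p) ^ n : O p) : Qb) = (((p : ℕ) : Qb)) ^ n := by
    rw [SubmonoidClass.coe_pow, cast_O]
    norm_cast
  rw [h2, cast_O, Pool.Agent.H12.ZD.v_pow, Pool.Agent.H12.ZD.v_self,
    Pool.Agent.H12.ZD.v_intCast] at h1
  have h3 : ‖(D : ℚ_[p])‖ ≤ ((p : ℕ) : ℝ) ^ (-n : ℤ) := by
    rw [zpow_neg, zpow_natCast, ← inv_pow]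
    exact h1
  have h4 := (Padic.norm_int_le_pow_iff_dvd D n).1 h3
  exact_mod_cast h4

/-- the entries of the interpolation matrix -/
def ent {R : Type} [CommRing R] (δ : ℕ) (t u : R) (j : ℕ) : R :=
  if j < δ + 1 then t ^ j else t ^ (j - (δ + 1)) * u

theorem prod_ent (δ B X : ℕ) :
    ∏ j : Fin (2 * (δ + 1)), (ent δ (X : ℤ) (B * X ^ δ) j) =
      B ^ (δ + 1) * X ^ (2 * δ * (δ + 1)) := by
  rw [Fin.prod_univ_eq_prod_range (fun j => ent δ (X : ℤ) (B * X ^ δ) j), two_mul,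
    Finset.prod_range_add]
  have h1 : ∏ x ∈ Finset.range (δ + 1), ent δ (X : ℤ) (B * X ^ δ) x =
      (X : ℤ) ^ (∑ j ∈ Finset.range (δ + 1), j) := by
    rw [← Finset.prod_pow_eq_pow_sum]
    refine Finset.prod_congr rfl fun j hj => ?_
    unfold ent
    rw [if_pos (Finset.mem_range.1 hj)]
  have h2 : ∏ x ∈ Finset.range (δ + 1), ent δ (X : ℤ) (B * X ^ δ) (δ + 1 + x) =
      (X : ℤ) ^ (∑ j ∈ Finset.range (δ + 1), j) * (B * X ^ δ) ^ (δ + 1) := by
    rw [← Finset.prod_pow_eq_pow_sum]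
    have h3 : ((B : ℤ) * X ^ δ) ^ (δ + 1) = ∏ _j ∈ Finset.range (δ + 1), ((B : ℤ) * X ^ δ) := by
      rw [Finset.prod_const, Finset.card_range]
    rw [h3, ← Finset.prod_mul_distrib]
    refine Finset.prod_congr rfl fun j _ => ?_
    unfold ent
    rw [if_neg (by omega)]
    congr 2
    omega
  rw [h1, h2]
  have h4 := Finset.sum_range_id_mul_two (δ + 1)
  rw [Nat.add_sub_cancel] at h4
  obtain ⟨S, hS⟩ : ∃ S, S = ∑ j ∈ Finset.range (δ + 1), j := ⟨_, rfl⟩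
  rw [← hS] at h4 ⊢
  rw [mul_pow, ← pow_mul, ← mul_assoc, ← mul_assoc]
  have h5 : (2 * δ * (δ + 1)) = S + S + δ * (δ + 1) := by
    have : S * 2 = (δ + 1) * δ := h4
    nlinarith
  rw [h5, pow_add, pow_add]
  ring

/-- the interpolation determinant vanishes -/
theorem det_zero (hDET : T_DET) (U : PowerSeries (O p)) (δ B T₀ s : ℕ)
    (hK : (2 * (δ + 1)).factorial * (B ^ (δ + 1) * (T₀ + 1) ^ (2 * δ * (δ + 1))) < (p : ℕ) ^ s)
    (τ : Fin (2 * (δ + 1)) → ℕ) (u : Fin (2 * (δ + 1)) → ℤ) (t : Fin (2 * (δ + 1)) → ℤ)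
    (ht : ∀ i, t i = ((p : ℕ) : ℤ) ^ s * τ i) (hτ : ∀ i, τ i ≤ T₀)
    (hu : ∀ i, |u i| ≤ B * (|t i| + 1) ^ δ)
    (hU : ∀ i (L : ℕ), v p ((u i : Qb) -
      (((PowerSeries.trunc L U).eval ((t i : ℤ) : O p) : O p) : Qb)) ≤ v p (t i : Qb) ^ L) :
    Matrix.det (Matrix.of fun i j : Fin (2 * (δ + 1)) => ent δ (t i) (u i) j) = 0 := by
  obtain ⟨r, hr⟩ : ∃ r, r = 2 * (δ + 1) := ⟨_, rfl⟩
  obtain ⟨N₀, hN₀⟩ : ∃ N₀, N₀ = r * (r - 1) / 2 := ⟨_, rfl⟩
  have hN₀' : N₀ = (δ + 1) * (2 * δ + 1) := by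
    rw [hN₀, hr]
    have : 2 * (δ + 1) * (2 * (δ + 1) - 1) = (δ + 1) * (2 * δ + 1) * 2 := by
      have h1 : 2 * (δ + 1) - 1 = 2 * δ + 1 := by omega
      rw [h1]
      ring
    rw [this, Nat.mul_div_cancel _ (by norm_num)]
  obtain ⟨D, hD⟩ : ∃ D, D = Matrix.det (Matrix.of fun i j : Fin (2 * (δ + 1)) =>
    ent δ (t i) (u i) j) := ⟨_, rfl⟩
  rw [← hD]
  have hps : (1 : ℤ) ≤ ((p : ℕ) : ℤ) ^ s := by
    have : 1 ≤ (p : ℕ) ^ s := Nat.one_le_pow _ _ p.2.pos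
    exact_mod_cast this
  -- divisibility
  have hdvd : (((p : ℕ) : ℤ) ^ s) ^ N₀ ∣ D := by
    rw [← pow_mul]
    apply dvd_of_v p
    rw [pow_mul]
    obtain ⟨Q, hQ⟩ : ∃ Q : O p, Q = ((((p : ℕ) : ℤ) : O p) ^ s) := ⟨_, rfl⟩
    rw [← hQ]
    have hDM : ((D : ℤ) : O p) = Matrix.det (Matrix.of fun i j : Fin (2 * (δ + 1)) =>
        ent δ ((t i : ℤ) : O p) ((u i : ℤ) : O p) j) := by
      rw [hD]
      have h1 := RingHom.map_det (Int.castRingHom (O p)) (Matrix.of fun i j : Fin (2 * (δ + 1)) =>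
        ent δ (t i) (u i) j)
      rw [eq_intCast] at h1
      rw [h1]
      congr 1
      ext1 i j
      change Int.castRingHom (O p) (ent δ (t i) (u i) j) = ent δ ((t i : ℤ) : O p)
        ((u i : ℤ) : O p) j
      unfold ent
      split_ifs <;> simp
    rw [hDM]
    obtain ⟨F, hF⟩ : ∃ F : Fin (2 * (δ + 1)) → Polynomial (O p), F = fun (j : Fin (2 * (δ + 1))) =>
      ent δ (Polynomial.X : Polynomial (O p)) (PowerSeries.trunc N₀ U) (j : ℕ) := ⟨_, rfl⟩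
    have hFe : ∀ i j, (F j).eval ((t i : ℤ) : O p) = ent δ ((t i : ℤ) : O p)
        ((PowerSeries.trunc N₀ U).eval ((t i : ℤ) : O p)) j := by
      intro i j
      rw [hF]
      unfold ent
      dsimp only
      split_ifs <;> simp
    refine dvd_det _ _ (Matrix.of fun i j => (F j).eval ((t i : ℤ) : O p)) ?_ ?_
    · intro i j
      change Q ^ N₀ ∣ ent δ ((t i : ℤ) : O p) ((u i : ℤ) : O p) j - (F j).eval ((t i : ℤ) : O p)
      rw [hFe]
      have h2 : Q ^ N₀ ∣ ((u i : ℤ) : O p) - (PowerSeries.trunc N₀ U).eval ((t i : ℤ) : O p) := by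
        have h3 : Q ∣ ((t i : ℤ) : O p) := by
          rw [hQ, ht]
          exact ⟨((τ i : ℤ) : O p), by push_cast; rfl⟩
        have h4 := v_dvd p (pow_dvd_pow_of_dvd h3 N₀)
        have h5 : v p (((((u i : ℤ) : O p) - (PowerSeries.trunc N₀ U).eval ((t i : ℤ) : O p) :
            O p) : Qb)) ≤ v p (((((t i : ℤ) : O p) ^ N₀ : O p) : Qb)) := by
          have h6 := hU i N₀
          have e1 : ((((u i : ℤ) : O p) - (PowerSeries.trunc N₀ U).eval ((t i : ℤ) : O p) :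
            O p) : Qb) = (u i : Qb) -
              (((PowerSeries.trunc N₀ U).eval ((t i : ℤ) : O p) : O p) : Qb) := by
            rw [AddSubgroupClass.coe_sub, cast_O]
          have e2 : (((((t i : ℤ) : O p) ^ N₀ : O p) : Qb)) = (t i : Qb) ^ N₀ := by
            rw [SubmonoidClass.coe_pow, cast_O]
          rw [e1, e2, Pool.Agent.H12.ZD.v_pow]
          exact h6
        exact dvd_O p (h5.trans h4)
      unfold ent
      split_ifs
      · rw [sub_self]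
        exact dvd_zero _
      · rw [← mul_sub]
        exact Dvd.dvd.mul_left h2 _
    · have h2 := hDET (O p) (2 * (δ + 1)) F (fun j => ((t j : ℤ) : O p))
      rw [← Matrix.det_transpose]
      refine dvd_trans ?_ h2
      have h3 : ∏ i : Fin (2 * (δ + 1)), ∏ _j ∈ Finset.Ioi i, Q = Q ^ N₀ := by
        simp only [Finset.prod_const]
        rw [Finset.prod_pow_eq_pow_sum, sum_Ioi, hN₀, hr]
      rw [← h3]
      refine Finset.prod_dvd_prod_of_dvd _ _ fun i _ => Finset.prod_dvd_prod_of_dvd _ _ fun j _ => ?_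
      have h4 : ∀ i, Q ∣ ((t i : ℤ) : O p) := by
        intro i
        rw [hQ, ht]
        exact ⟨((τ i : ℤ) : O p), by push_cast; rfl⟩
      exact dvd_sub (h4 j) (h4 i)
  -- size
  obtain ⟨X, hX⟩ : ∃ X : ℕ, X = (T₀ + 1) * (p : ℕ) ^ s := ⟨_, rfl⟩
  have htX : ∀ i, |t i| + 1 ≤ X := by
    intro i
    rw [ht, hX, abs_mul, abs_of_nonneg (by linarith : (0 : ℤ) ≤ ((p : ℕ) : ℤ) ^ s),
      abs_of_nonneg (by positivity : (0 : ℤ) ≤ (τ i : ℤ))]
    have h1 : (τ i : ℤ) ≤ T₀ := by exact_mod_cast hτ i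
    push_cast
    nlinarith
  have hbd : |D| ≤ (2 * (δ + 1)).factorial * (B ^ (δ + 1) * (X : ℤ) ^ (2 * δ * (δ + 1))) := by
    rw [hD]
    refine (abs_det_le _ (fun j => ent δ (X : ℤ) (B * X ^ δ) j) ?_).trans (le_of_eq ?_)
    · intro i j
      change |ent δ (t i) (u i) j| ≤ ent δ (X : ℤ) (B * X ^ δ) j
      have h1 := htX i
      have h2 : |t i| ≤ X := by linarith
      unfold ent
      split_ifs
      · rw [abs_pow]
        exact pow_le_pow_left₀ (abs_nonneg _) h2 _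
      · rw [abs_mul, abs_pow]
        refine mul_le_mul (pow_le_pow_left₀ (abs_nonneg _) h2 _) ((hu i).trans ?_) (abs_nonneg _)
          (by positivity)
        refine mul_le_mul_of_nonneg_left (pow_le_pow_left₀ (by positivity) h1 _) (by positivity)
    · rw [prod_ent]
  apply Int.eq_zero_of_abs_lt_dvd hdvd
  refine lt_of_le_of_lt hbd ?_
  rw [hX]
  push_cast
  rw [mul_pow, ← mul_assoc ((B : ℤ) ^ (δ + 1)), ← mul_assoc]
  have h7 : ((2 * (δ + 1)).factorial : ℤ) * ((B : ℤ) ^ (δ + 1) *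
      ((T₀ : ℤ) + 1) ^ (2 * δ * (δ + 1))) < ((p : ℕ) : ℤ) ^ s := by exact_mod_cast hK
  have h8 : ((p : ℕ) : ℤ) ^ s * (((p : ℕ) : ℤ) ^ s) ^ (2 * δ * (δ + 1)) ≤
      (((p : ℕ) : ℤ) ^ s) ^ N₀ := by
    rw [← pow_succ']
    apply pow_le_pow_right₀ hps
    rw [hN₀']
    nlinarith
  refine lt_of_lt_of_le ?_ h8
  exact mul_lt_mul_of_pos_right h7 (by positivity)

end Pool.Agent.H21.HIT
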