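import Pool.Agent.H21.HIT.HIZa

/-!
# Hilbert's irreducibility theorem over the integers (row HIZ), part 2: roots and the resultant
-/

set_option autoImplicit false

open MvPolynomial
open Pool.Agent.H12.ZD (pmap v O Res DenseOrbit NoInv)
open Pool.Agent.H18.HIT

namespace Pool.Agent.H21.HIT

/-- the roots of a separable monic polynomial over an algebraically closed field -/
theorem roots_fin {F : Type} [Field F] [IsAlgClosed F] (P : Polynomial F) (hP : P.Monic)
    (hs : P.Separable) (E : ℕ) (hE : P.natDegree = E) : ∃ α : Fin E → F, Function.Injective α ∧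
      P = ∏ a, (Polynomial.X - Polynomial.C (α a)) := by
  classical
  subst hE
  have hsp := IsAlgClosed.splits P
  have hn := Polynomial.nodup_roots hs
  have hc : P.roots.toFinset.card = P.natDegree := by
    rw [Multiset.toFinset_card_of_nodup hn]
    exact hsp.natDegree_eq_card_roots.symm
  obtain ⟨e⟩ : Nonempty (P.roots.toFinset ≃ Fin P.natDegree) :=
    ⟨Finset.equivFinOfCardEq hc⟩
  refine ⟨fun a => (e.symm a : F), fun a b h => e.symm.injective (Subtype.ext h), ?_⟩
  have h1 : P = ∏ x ∈ P.roots.toFinset, (Polynomial.X - Polynomial.C x) := by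
    conv_lhs => rw [hsp.eq_prod_roots_of_monic hP]
    rw [Finset.prod, Multiset.toFinset_val, Multiset.dedup_eq_self.2 hn]
  have h2 : ∏ x ∈ P.roots.toFinset, (Polynomial.X - Polynomial.C x) =
      ∏ x : P.roots.toFinset, (Polynomial.X - Polynomial.C (x : F)) :=
    (Finset.prod_coe_sort P.roots.toFinset fun x => Polynomial.X - Polynomial.C x).symm
  have h3 : ∏ a, (Polynomial.X - Polynomial.C ((e.symm a : P.roots.toFinset) : F)) =
      ∏ x : P.roots.toFinset, (Polynomial.X - Polynomial.C (x : F)) :=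
    Equiv.prod_comp e.symm fun x : P.roots.toFinset => Polynomial.X - Polynomial.C (x : F)
  rw [h3, ← h2]
  exact h1

/-- the roots of a monic integral polynomial with nonzero discriminant -/
theorem exists_roots (P : Polynomial ℤ) (hP : P.Monic) (U V : Polynomial ℤ) (r : ℤ) (hr : r ≠ 0)
    (h : U * P + V * Polynomial.derivative P = Polynomial.C r) (E : ℕ) (hE : P.natDegree = E) :
    ∃ α : Fin E → Qb, Function.Injective α ∧
      P.map (Int.castRingHom Qb) = ∏ a, (Polynomial.X - Polynomial.C (α a)) ∧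
      ∀ (p : Nat.Primes) a, v p (α a) ≤ 1 := by
  have hd : (P.map (Int.castRingHom Qb)).natDegree = E := (hP.natDegree_map _).trans hE
  have hr' : (r : Qb) ≠ 0 := by exact_mod_cast hr
  have hs : (P.map (Int.castRingHom Qb)).Separable := by
    refine ⟨Polynomial.C (r : Qb)⁻¹ * U.map (Int.castRingHom Qb),
      Polynomial.C (r : Qb)⁻¹ * V.map (Int.castRingHom Qb), ?_⟩
    rw [Polynomial.derivative_map, mul_assoc, mul_assoc, ← mul_add, ← Polynomial.map_mul,
      ← Polynomial.map_mul, ← Polynomial.map_add, h, Polynomial.map_C, eq_intCast,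
      ← Polynomial.C_mul, inv_mul_cancel₀ hr', Polynomial.C_1]
  obtain ⟨α, h1, h2⟩ := roots_fin _ (hP.map (Int.castRingHom Qb)) hs E hd
  refine ⟨α, h1, h2, fun p a => Pool.Agent.H12.ZD.v_le_one_of_isIntegral p ⟨P, hP, ?_⟩⟩
  have h3 : (P.map (Int.castRingHom Qb)).eval (α a) = 0 := by
    rw [h2, Polynomial.eval_prod]
    exact Finset.prod_eq_zero (Finset.mem_univ a) (by simp)
  rw [Polynomial.eval_map] at h3
  have h4 : (algebraMap ℤ Qb) = Int.castRingHom Qb := RingHom.ext_int _ _
  rw [h4]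
  exact h3

/-- a prime at which finitely many differences are units -/
theorem exists_prime {E : ℕ} (α : Fin E → Qb) (hα : Function.Injective α) :
    ∃ p : Nat.Primes, ∀ a b, a ≠ b → v p (α a - α b) = 1 := by
  classical
  have h1 : ∀ a b, ∃ M : ℕ, a ≠ b → ∀ p : Nat.Primes, M < p → v p (α a - α b) = 1 := by
    intro a b
    by_cases hab : a = b
    · exact ⟨0, fun h => absurd hab h⟩
    · obtain ⟨M, hM⟩ := Pool.Agent.H12.ZD.exists_bound_eq
        (x := α a - α b) (sub_ne_zero.2 fun h => hab (hα h))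
      exact ⟨M, fun _ => hM⟩
  choose M hM using h1
  obtain ⟨q, hq, hqp⟩ := Nat.exists_infinite_primes ((∑ a, ∑ b, M a b) + 1)
  refine ⟨⟨q, hqp⟩, fun a b hab => hM a b hab ⟨q, hqp⟩ ?_⟩
  have h2 : M a b ≤ ∑ b, M a b :=
    Finset.single_le_sum (f := fun b => M a b) (fun _ _ => Nat.zero_le _) (Finset.mem_univ b)
  have h3 : ∑ b, M a b ≤ ∑ a, ∑ b, M a b :=
    Finset.single_le_sum (f := fun a => ∑ b, M a b) (fun _ _ => Nat.zero_le _)
      (Finset.mem_univ a)
  change M a b < q
  omega

/-- clearing denominators -/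
theorem clear {r : ℕ} (g : Fin r → ℚ) : ∃ (D : ℤ) (z : Fin r → ℤ), D ≠ 0 ∧
    ∀ j, (z j : ℚ) = D * g j := by
  obtain ⟨b, hb⟩ := IsLocalization.exist_integer_multiples_of_finite (nonZeroDivisors ℤ) g
  have h1 : ∀ j, ∃ z : ℤ, (z : ℚ) = (b : ℤ) * g j := by
    intro j
    obtain ⟨z, hz⟩ := hb j
    refine ⟨z, ?_⟩
    rw [eq_intCast] at hz
    rw [hz, zsmul_eq_mul]
  choose z hz using h1
  exact ⟨b, z, nonZeroDivisors.ne_zero b.2, hz⟩

/-- the resultant argument -/
theorem alg_end (Y : Polynomial (Polynomial ℤ)) (δ C₁ r : ℕ) (hr : r = 2 * (δ + 1))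
    (hC : Y.natDegree * δ + ∑ i ∈ Finset.range (Y.natDegree + 1), (Y.coeff i).natDegree ≤ C₁)
    (hY : ∀ g₀ g₁ : Polynomial ℤ, ¬ (g₀ = 0 ∧ g₁ = 0) →
      ∑ i ∈ Finset.range (Y.natDegree + 1), Y.coeff i * g₀ ^ i * g₁ ^ (Y.natDegree - i) ≠ 0)
    (Θ : Finset ℤ) (hΘ : C₁ < Θ.card) (u : ℤ → ℤ)
    (hu : ∀ t ∈ Θ, (Y.map (Polynomial.evalRingHom t)).eval (u t) = 0)
    (g : Fin r → ℚ) (hg : g ≠ 0)
    (hgt : ∀ t ∈ Θ, ∑ j, g j * ent δ (t : ℚ) (u t : ℚ) j = 0) : False := by
  classical
  obtain ⟨D, z, hD, hz⟩ := clear g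
  obtain ⟨z', hz'⟩ : ∃ z' : ℕ → ℤ, z' = fun j => if h : j < r then z ⟨j, h⟩ else 0 := ⟨_, rfl⟩
  have hz'j : ∀ j : Fin r, z' j = z j := by
    intro j
    rw [hz']
    exact dif_pos j.2
  have hsum : ∀ t ∈ Θ, ∑ j ∈ Finset.range (2 * (δ + 1)), z' j * ent δ t (u t) j = 0 := by
    intro t ht
    have h1 := hgt t ht
    have h2 : ((∑ j : Fin r, z' j * ent δ t (u t) j : ℤ) : ℚ) = 0 := by
      push_cast
      have h3 : ∀ j : Fin r, ((z' j : ℤ) : ℚ) * ((ent δ t (u t) j : ℤ) : ℚ) =
          D * (g j * ent δ (t : ℚ) (u t : ℚ) j) := by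
        intro j
        rw [hz'j, hz]
        have h4 : ((ent δ t (u t) j : ℤ) : ℚ) = ent δ (t : ℚ) (u t : ℚ) j := by
          unfold ent
          split_ifs <;> push_cast <;> rfl
        rw [h4]
        ring
      rw [Finset.sum_congr rfl fun j _ => h3 j, ← Finset.mul_sum, h1, mul_zero]
    have h5 : (∑ j : Fin r, z' j * ent δ t (u t) j : ℤ) = 0 := by exact_mod_cast h2
    rw [Fin.sum_univ_eq_sum_range (fun j => z' j * ent δ t (u t) j), hr] at h5
    exact h5
  obtain ⟨G₀, hG₀⟩ : ∃ G₀ : Polynomial ℤ, G₀ = ∑ j ∈ Finset.range (δ + 1),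
    Polynomial.monomial j (z' j) := ⟨_, rfl⟩
  obtain ⟨G₁, hG₁⟩ : ∃ G₁ : Polynomial ℤ, G₁ = ∑ j ∈ Finset.range (δ + 1),
    Polynomial.monomial j (z' (δ + 1 + j)) := ⟨_, rfl⟩
  have hrel : ∀ t ∈ Θ, G₀.eval t + G₁.eval t * u t = 0 := by
    intro t ht
    have h1 := hsum t ht
    rw [two_mul, Finset.sum_range_add] at h1
    rw [← h1, hG₀, hG₁, Polynomial.eval_finsetSum, Polynomial.eval_finsetSum, Finset.sum_mul]
    congr 1
    · refine Finset.sum_congr rfl fun j hj => ?_
      unfold ent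
      rw [if_pos (Finset.mem_range.1 hj), Polynomial.eval_monomial]
    · refine Finset.sum_congr rfl fun j _ => ?_
      unfold ent
      rw [if_neg (by omega), Polynomial.eval_monomial, Nat.add_sub_cancel_left]
      ring
  have hd0 : G₀.natDegree ≤ δ := by
    rw [hG₀]
    refine Polynomial.natDegree_sum_le_of_forall_le _ _ fun j hj => ?_
    have := Finset.mem_range.1 hj
    exact (Polynomial.natDegree_monomial_le _).trans (by omega)
  have hd1 : G₁.natDegree ≤ δ := by
    rw [hG₁]
    refine Polynomial.natDegree_sum_le_of_forall_le _ _ fun j hj => ?_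
    have := Finset.mem_range.1 hj
    exact (Polynomial.natDegree_monomial_le _).trans (by omega)
  have hne : ¬ (-G₀ = 0 ∧ G₁ = 0) := by
    rintro ⟨h1, h2⟩
    rw [neg_eq_zero] at h1
    apply hg
    funext j
    have h3 : z j = 0 := by
      rw [← hz'j]
      by_cases hj : (j : ℕ) < δ + 1
      · have h4 := congrArg (fun P : Polynomial ℤ => P.coeff j) h1
        simp only [hG₀, Polynomial.finsetSum_coeff, Polynomial.coeff_monomial,
          Polynomial.coeff_zero, Finset.sum_ite_eq', Finset.mem_range, if_pos hj] at h4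
        exact h4
      · have hj2 := j.2
        have h4 := congrArg (fun P : Polynomial ℤ => P.coeff (j - (δ + 1))) h2
        have hj3 : (j : ℕ) - (δ + 1) < δ + 1 := by omega
        simp only [hG₁, Polynomial.finsetSum_coeff, Polynomial.coeff_monomial,
          Polynomial.coeff_zero, Finset.sum_ite_eq', Finset.mem_range, if_pos hj3] at h4
        have e : δ + 1 + ((j : ℕ) - (δ + 1)) = j := by omega
        rw [e] at h4
        exact h4
    have h5 := hz j
    rw [h3, Int.cast_zero] at h5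
    have hD' : (D : ℚ) ≠ 0 := by exact_mod_cast hD
    exact (mul_eq_zero.1 h5.symm).resolve_left hD'
  obtain ⟨R, hR⟩ : ∃ R : Polynomial ℤ, R = ∑ i ∈ Finset.range (Y.natDegree + 1),
    Y.coeff i * (-G₀) ^ i * G₁ ^ (Y.natDegree - i) := ⟨_, rfl⟩
  have hR0 : R ≠ 0 := hR ▸ hY (-G₀) G₁ hne
  apply hR0
  apply Polynomial.eq_zero_of_natDegree_lt_card_of_eval_eq_zero' R Θ
  · intro t ht
    rw [hR, Polynomial.eval_finsetSum]
    have h1 := hrel t ht
    have h2 := hu t ht
    rw [Polynomial.eval_map, Polynomial.eval₂_eq_sum_range] at h2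
    have h3 : ∀ i ∈ Finset.range (Y.natDegree + 1),
        (Y.coeff i * (-G₀) ^ i * G₁ ^ (Y.natDegree - i)).eval t =
        (G₁.eval t) ^ Y.natDegree * ((Polynomial.evalRingHom t) (Y.coeff i) * (u t) ^ i) := by
      intro i hi
      have hi' : i ≤ Y.natDegree := by
        have := Finset.mem_range.1 hi
        omega
      have e1 : (-G₀).eval t = G₁.eval t * u t := by
        rw [Polynomial.eval_neg]
        linarith
      rw [Polynomial.eval_mul, Polynomial.eval_mul, Polynomial.eval_pow, Polynomial.eval_pow, e1,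
        Polynomial.coe_evalRingHom]
      have e2 : G₁.eval t ^ Y.natDegree = G₁.eval t ^ i * G₁.eval t ^ (Y.natDegree - i) := by
        rw [← pow_add]
        congr 1
        omega
      rw [e2, mul_pow]
      ring
    rw [Finset.sum_congr rfl h3, ← Finset.mul_sum, h2, mul_zero]
  · refine lt_of_le_of_lt ?_ hΘ
    refine le_trans ?_ hC
    rw [hR]
    refine Polynomial.natDegree_sum_le_of_forall_le _ _ fun i hi => ?_
    have hi' : i ≤ Y.natDegree := by
      have := Finset.mem_range.1 hi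
      omega
    have h1 : (Y.coeff i).natDegree ≤ ∑ i ∈ Finset.range (Y.natDegree + 1),
        (Y.coeff i).natDegree :=
      Finset.single_le_sum (f := fun i => (Y.coeff i).natDegree) (fun _ _ => Nat.zero_le _) hi
    have h2 : ((-G₀) ^ i).natDegree ≤ i * δ := by
      refine Polynomial.natDegree_pow_le.trans (Nat.mul_le_mul_left _ ?_)
      rw [Polynomial.natDegree_neg]
      exact hd0
    have h3 : (G₁ ^ (Y.natDegree - i)).natDegree ≤ (Y.natDegree - i) * δ :=
      Polynomial.natDegree_pow_le.trans (Nat.mul_le_mul_left _ hd1)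
    have h4 : i * δ + (Y.natDegree - i) * δ = Y.natDegree * δ := by
      rw [← add_mul]
      congr 1
      omega
    have h5 := Polynomial.natDegree_mul_le (p := Y.coeff i * (-G₀) ^ i)
      (q := G₁ ^ (Y.natDegree - i))
    have h6 := Polynomial.natDegree_mul_le (p := Y.coeff i) (q := (-G₀) ^ i)
    omega

end Pool.Agent.H21.HIT
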